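import Pool.Agent.Helper68.LM.Geo

/-!
# Project LM: the van der Corput lemma (first and second derivative)
-/

set_option autoImplicit false

open MeasureTheory Set Filter Topology intervalIntegral

namespace Pool.Agent.Helper8.LM

open Pool.Agent.Helper68.LM

/-- regularity data on an open interval -/
theorem c2_data {a b : ℝ} {g : ℝ → ℝ} (h : ContDiffOn ℝ 2 g (Ioo a b)) :
    (∀ t ∈ Ioo a b, HasDerivAt g (deriv g t) t) ∧
    (∀ t ∈ Ioo a b, HasDerivAt (deriv g) (deriv (deriv g) t) t) ∧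
    ContinuousOn (deriv (deriv g)) (Ioo a b) := by
  have h2 : ContDiffOn ℝ (1 + 1) g (Ioo a b) := by
    have e : (2 : WithTop ℕ∞) = 1 + 1 := by norm_num
    rw [← e]; exact h
  have h3 := (contDiffOn_succ_iff_deriv_of_isOpen isOpen_Ioo).1 h2
  have h4 : ContDiffOn ℝ (0 + 1) (deriv g) (Ioo a b) := by
    simpa using h3.2.2
  have h5 := (contDiffOn_succ_iff_deriv_of_isOpen isOpen_Ioo).1 h4
  refine ⟨fun t ht => (h3.1.differentiableAt (Ioo_mem_nhds ht.1 ht.2)).hasDerivAt,
    fun t ht => (h5.1.differentiableAt (Ioo_mem_nhds ht.1 ht.2)).hasDerivAt, h5.2.2.continuousOn⟩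

theorem norm_e (x : ℝ) : ‖Complex.exp ((x : ℂ) * Complex.I)‖ = 1 :=
  Complex.norm_exp_ofReal_mul_I x

theorem norm_int_le (g : ℝ → ℝ) {c d : ℝ} (h : c ≤ d) :
    ‖∫ t in c..d, Complex.exp ((g t : ℂ) * Complex.I)‖ ≤ d - c := by
  have := intervalIntegral.norm_integral_le_of_norm_le_const (a := c) (b := d) (C := 1)
    (f := fun t => Complex.exp ((g t : ℂ) * Complex.I)) (fun t _ => (norm_e (g t)).le)
  rw [abs_of_nonneg (by linarith), one_mul] at this
  exact this

theorem contOn_e {g : ℝ → ℝ} {s : Set ℝ} (h : ContinuousOn g s) :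
    ContinuousOn (fun t => Complex.exp ((g t : ℂ) * Complex.I)) s := by
  apply ContinuousOn.cexp
  exact (Complex.continuous_ofReal.comp_continuousOn h).mul continuousOn_const

theorem ii_e {g : ℝ → ℝ} {a b c d : ℝ} (h : ContinuousOn g (Icc a b)) (hac : a ≤ c) (hcd : c ≤ d)
    (hdb : d ≤ b) :
    IntervalIntegrable (fun t => Complex.exp ((g t : ℂ) * Complex.I)) volume c d := by
  apply ContinuousOn.intervalIntegrable
  rw [uIcc_of_le hcd]
  exact contOn_e (h.mono (Icc_subset_Icc hac hdb))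

/-- compact subintervals -/
theorem first_compact {a b : ℝ} {g : ℝ → ℝ} {μ : ℝ} (hμ : 0 < μ)
    (h : ContDiffOn ℝ 2 g (Ioo a b))
    (hs : (∀ t ∈ Ioo a b, 0 ≤ deriv (deriv g) t) ∨ (∀ t ∈ Ioo a b, deriv (deriv g) t ≤ 0))
    (hg : ∀ t ∈ Ioo a b, μ ≤ |deriv g t|) {c d : ℝ} (hac : a < c) (hcd : c ≤ d) (hdb : d < b) :
    ‖∫ t in c..d, Complex.exp ((g t : ℂ) * Complex.I)‖ ≤ 3 / μ := by
  obtain ⟨h1, h2, h3⟩ := c2_data h
  have hsub : Icc c d ⊆ Ioo a b := fun t ht => ⟨lt_of_lt_of_le hac ht.1, lt_of_le_of_lt ht.2 hdb⟩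
  have hsub' : uIcc c d ⊆ Ioo a b := by rw [uIcc_of_le hcd]; exact hsub
  have hne : ∀ t ∈ Ioo a b, deriv g t ≠ 0 := by
    intro t ht h0
    have := hg t ht
    rw [h0, abs_zero] at this
    linarith
  have hneC : ∀ t ∈ Ioo a b, ((deriv g t : ℝ) : ℂ) ≠ 0 := fun t ht => by
    exact_mod_cast hne t ht
  -- the functions
  have hu : ∀ t ∈ uIcc c d, HasDerivAt (fun t : ℝ => ((deriv g t : ℝ) : ℂ)⁻¹ * (-Complex.I))
      ((-((deriv (deriv g) t : ℝ) : ℂ) / ((deriv g t : ℝ) : ℂ) ^ 2) * (-Complex.I)) t := by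
    intro t ht
    have e := (h2 t (hsub' ht)).ofReal_comp
    exact (e.inv (hneC t (hsub' ht))).mul_const _
  have hv : ∀ t ∈ uIcc c d, HasDerivAt (fun t : ℝ => Complex.exp ((g t : ℂ) * Complex.I))
      (Complex.exp ((g t : ℂ) * Complex.I) * (((deriv g t : ℝ) : ℂ) * Complex.I)) t := by
    intro t ht
    have e := (h1 t (hsub' ht)).ofReal_comp
    exact (e.mul_const Complex.I).cexp
  have cg : ContinuousOn (deriv g) (Icc c d) := fun t ht =>
    (h2 t (hsub ht)).continuousAt.continuousWithinAt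
  have cgg : ContinuousOn (deriv (deriv g)) (Icc c d) := h3.mono hsub
  have cg0 : ContinuousOn g (Icc c d) := fun t ht =>
    (h1 t (hsub ht)).continuousAt.continuousWithinAt
  have cgC : ContinuousOn (fun t => ((deriv g t : ℝ) : ℂ)) (Icc c d) :=
    Complex.continuous_ofReal.comp_continuousOn cg
  have cggC : ContinuousOn (fun t => ((deriv (deriv g) t : ℝ) : ℂ)) (Icc c d) :=
    Complex.continuous_ofReal.comp_continuousOn cgg
  have hu' : IntervalIntegrable (fun t => (-((deriv (deriv g) t : ℝ) : ℂ) /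
      ((deriv g t : ℝ) : ℂ) ^ 2) * (-Complex.I)) volume c d := by
    apply ContinuousOn.intervalIntegrable
    rw [uIcc_of_le hcd]
    exact (cggC.neg.div (cgC.pow 2) (fun t ht => pow_ne_zero 2 (hneC t (hsub ht)))).mul
      continuousOn_const
  have hv' : IntervalIntegrable (fun t => Complex.exp ((g t : ℂ) * Complex.I) *
      (((deriv g t : ℝ) : ℂ) * Complex.I)) volume c d := by
    apply ContinuousOn.intervalIntegrable
    rw [uIcc_of_le hcd]
    exact (contOn_e cg0).mul (cgC.mul continuousOn_const)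
  have key := intervalIntegral.integral_mul_deriv_eq_deriv_mul hu hv hu' hv'
  have e1 : ∫ t in c..d, Complex.exp ((g t : ℂ) * Complex.I) =
      ∫ t in c..d, (((deriv g t : ℝ) : ℂ)⁻¹ * (-Complex.I)) *
        (Complex.exp ((g t : ℂ) * Complex.I) * (((deriv g t : ℝ) : ℂ) * Complex.I)) := by
    apply intervalIntegral.integral_congr
    intro t ht
    have := hneC t (hsub' ht)
    field_simp
    ring_nf
    simp
  rw [e1, key]
  -- real integral of g''/g'^2
  have hI : ∫ t in c..d, (-(deriv (deriv g) t) / (deriv g t) ^ 2) =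
      (deriv g d)⁻¹ - (deriv g c)⁻¹ := by
    apply intervalIntegral.integral_eq_sub_of_hasDerivAt
    · intro t ht
      exact (h2 t (hsub' ht)).inv (hne t (hsub' ht))
    · apply ContinuousOn.intervalIntegrable
      rw [uIcc_of_le hcd]
      exact cgg.neg.div (cg.pow 2) (fun t ht => pow_ne_zero 2 (hne t (hsub ht)))
  have hnorm : ‖∫ t in c..d, ((-((deriv (deriv g) t : ℝ) : ℂ) /
      ((deriv g t : ℝ) : ℂ) ^ 2) * (-Complex.I)) * Complex.exp ((g t : ℂ) * Complex.I)‖ ≤
      |(deriv g d)⁻¹ - (deriv g c)⁻¹| := by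
    have n1 : ∀ t : ℝ, ‖((-((deriv (deriv g) t : ℝ) : ℂ) /
      ((deriv g t : ℝ) : ℂ) ^ 2) * (-Complex.I)) * Complex.exp ((g t : ℂ) * Complex.I)‖ =
      |-(deriv (deriv g) t) / (deriv g t) ^ 2| := by
      intro t
      rw [norm_mul, norm_e, mul_one, norm_mul, norm_neg, Complex.norm_I, mul_one, norm_div,
        norm_neg, norm_pow, Complex.norm_real, Complex.norm_real, abs_div, abs_neg, abs_pow]
      rfl
    refine (intervalIntegral.norm_integral_le_integral_norm hcd).trans ?_
    rw [intervalIntegral.integral_congr (g := fun t => |-(deriv (deriv g) t) / (deriv g t) ^ 2|)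
      (fun t _ => n1 t)]
    rcases hs with hs | hs
    · have e2 : ∫ t in c..d, |-(deriv (deriv g) t) / (deriv g t) ^ 2| =
          ∫ t in c..d, -(-(deriv (deriv g) t) / (deriv g t) ^ 2) := by
        apply intervalIntegral.integral_congr
        intro t ht
        simp only
        rw [abs_of_nonpos]
        apply div_nonpos_of_nonpos_of_nonneg _ (sq_nonneg _)
        have := hs t (hsub' ht)
        linarith
      rw [e2, intervalIntegral.integral_neg, hI, ]
      exact neg_le_abs _
    · have e2 : ∫ t in c..d, |-(deriv (deriv g) t) / (deriv g t) ^ 2| =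
          ∫ t in c..d, (-(deriv (deriv g) t) / (deriv g t) ^ 2) := by
        apply intervalIntegral.integral_congr
        intro t ht
        simp only
        rw [abs_of_nonneg]
        apply div_nonneg _ (sq_nonneg _)
        have := hs t (hsub' ht)
        linarith
      rw [e2, hI]
      exact le_abs_self _
  have hc := hg c (hsub ⟨le_rfl, hcd⟩)
  have hd := hg d (hsub ⟨hcd, le_rfl⟩)
  have hsign : 0 < deriv g c * deriv g d := by
    by_contra hcon
    push Not at hcon
    -- a zero in between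
    have hz : (0 : ℝ) ∈ deriv g '' Icc c d := by
      rcases le_total (deriv g c) 0 with hh | hh
      · have hd0 : 0 ≤ deriv g d := by
          by_contra hx
          push Not at hx
          have hc' : deriv g c < 0 := lt_of_le_of_ne hh (hne c (hsub ⟨le_rfl, hcd⟩))
          nlinarith [mul_pos_of_neg_of_neg hc' hx]
        exact intermediate_value_Icc hcd cg ⟨hh, hd0⟩
      · have hd0 : deriv g d ≤ 0 := by
          by_contra hx
          push Not at hx
          have hc' : 0 < deriv g c := lt_of_le_of_ne hh (hne c (hsub ⟨le_rfl, hcd⟩)).symm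
          nlinarith [mul_pos hc' hx]
        exact intermediate_value_Icc' hcd cg ⟨hd0, hh⟩
    obtain ⟨t, ht, h0⟩ := hz
    exact hne t (hsub ht) h0
  have bd1 : |(deriv g c)⁻¹| ≤ 1 / μ := by
    rw [abs_inv, ← one_div]; exact one_div_le_one_div_of_le hμ hc
  have bd2 : |(deriv g d)⁻¹| ≤ 1 / μ := by
    rw [abs_inv, ← one_div]; exact one_div_le_one_div_of_le hμ hd
  have bd3 : |(deriv g d)⁻¹ - (deriv g c)⁻¹| ≤ 1 / μ := by
    have hp : 0 < (deriv g d)⁻¹ * (deriv g c)⁻¹ := by
      rw [← mul_inv]; exact inv_pos.2 (by rw [mul_comm]; exact hsign)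
    rw [abs_le] at bd1 bd2 ⊢
    rcases lt_or_ge 0 ((deriv g d)⁻¹) with hx | hx
    · have hy : 0 < (deriv g c)⁻¹ := (pos_iff_pos_of_mul_pos hp).1 hx
      constructor <;> linarith [bd1.1, bd1.2, bd2.1, bd2.2]
    · have hy : (deriv g c)⁻¹ ≤ 0 := by
        by_contra hy
        push Not at hy
        have := (pos_iff_pos_of_mul_pos hp).2 hy
        linarith
      constructor <;> linarith [bd1.1, bd1.2, bd2.1, bd2.2]
  have m1 : ∀ t : ℝ, ‖(((deriv g t : ℝ) : ℂ)⁻¹ * (-Complex.I)) *
      Complex.exp ((g t : ℂ) * Complex.I)‖ = |(deriv g t)⁻¹| := by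
    intro t
    rw [norm_mul, norm_e, mul_one, norm_mul, norm_neg, Complex.norm_I, mul_one, norm_inv,
      Complex.norm_real, abs_inv]
    rfl
  calc _ ≤ ‖(((deriv g d : ℝ) : ℂ)⁻¹ * (-Complex.I)) * Complex.exp ((g d : ℂ) * Complex.I)‖ +
        ‖(((deriv g c : ℝ) : ℂ)⁻¹ * (-Complex.I)) * Complex.exp ((g c : ℂ) * Complex.I)‖ +
        ‖∫ t in c..d, ((-((deriv (deriv g) t : ℝ) : ℂ) /
      ((deriv g t : ℝ) : ℂ) ^ 2) * (-Complex.I)) * Complex.exp ((g t : ℂ) * Complex.I)‖ := by
        refine (norm_sub_le _ _).trans ?_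
        gcongr
        exact norm_sub_le _ _
    _ ≤ 1 / μ + 1 / μ + 1 / μ := by
        rw [m1, m1]
        exact add_le_add (add_le_add bd2 bd1) (hnorm.trans bd3)
    _ = 3 / μ := by ring

theorem first {a b : ℝ} {g : ℝ → ℝ} {μ : ℝ} (hab : a < b) (hμ : 0 < μ)
    (hc : ContinuousOn g (Icc a b)) (h : ContDiffOn ℝ 2 g (Ioo a b))
    (hs : (∀ t ∈ Ioo a b, 0 ≤ deriv (deriv g) t) ∨ (∀ t ∈ Ioo a b, deriv (deriv g) t ≤ 0))
    (hg : ∀ t ∈ Ioo a b, μ ≤ |deriv g t|) :
    ‖∫ t in a..b, Complex.exp ((g t : ℂ) * Complex.I)‖ ≤ 3 / μ := by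
  apply le_of_forall_pos_le_add
  intro ε hε
  set η := min (ε / 2) ((b - a) / 3) with hη
  have hη0 : 0 < η := by rw [hη]; apply lt_min <;> linarith
  have hη1 : η ≤ ε / 2 := min_le_left _ _
  have hη2 : η ≤ (b - a) / 3 := min_le_right _ _
  have i1 := ii_e (a := a) (b := b) (c := a) (d := a + η) hc le_rfl (by linarith) (by linarith)
  have i2 := ii_e (a := a) (b := b) (c := a + η) (d := b - η) hc (by linarith) (by linarith)
    (by linarith)
  have i3 := ii_e (a := a) (b := b) (c := b - η) (d := b) hc (by linarith) (by linarith) le_rfl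
  rw [← intervalIntegral.integral_add_adjacent_intervals (i1.trans i2) i3,
    ← intervalIntegral.integral_add_adjacent_intervals i1 i2]
  have b1 := norm_int_le g (c := a) (d := a + η) (by linarith)
  have b2 := first_compact hμ h hs hg (c := a + η) (d := b - η) (by linarith) (by linarith)
    (by linarith)
  have b3 := norm_int_le g (c := b - η) (d := b) (by linarith)
  calc _ ≤ ‖∫ t in a..(a + η), Complex.exp ((g t : ℂ) * Complex.I)‖ +
      ‖∫ t in (a + η)..(b - η), Complex.exp ((g t : ℂ) * Complex.I)‖ +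
      ‖∫ t in (b - η)..b, Complex.exp ((g t : ℂ) * Complex.I)‖ := by
        refine (norm_add_le _ _).trans ?_
        gcongr
        exact norm_add_le _ _
    _ ≤ 3 / μ + ε := by linarith

/-- the right half -/
theorem half {a b : ℝ} {g : ℝ → ℝ} {μ : ℝ} (hab : a < b) (hμ : 0 < μ)
    (hc : ContinuousOn g (Icc a b)) (h : ContDiffOn ℝ 2 g (Ioo a b))
    (hs : ∀ t ∈ Ioo a b, μ ≤ deriv (deriv g) t)
    (hg : ∀ t ∈ Ioo a b, μ * (t - a) ≤ deriv g t) :
    ‖∫ t in a..b, Complex.exp ((g t : ℂ) * Complex.I)‖ ≤ 4 / Real.sqrt μ := by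
  have hsq : 0 < Real.sqrt μ := Real.sqrt_pos.2 hμ
  have hsq2 : Real.sqrt μ * Real.sqrt μ = μ := Real.mul_self_sqrt hμ.le
  set r := (3 / 2) / Real.sqrt μ with hr
  have hr0 : 0 < r := by positivity
  rcases le_or_gt (b - a) r with hbr | hbr
  · refine (norm_int_le g hab.le).trans (hbr.trans ?_)
    rw [hr]
    gcongr
    norm_num
  · have hmr : 0 < μ * r := by positivity
    have i1 := ii_e (a := a) (b := b) (c := a) (d := a + r) hc le_rfl (by linarith) (by linarith)
    have i2 := ii_e (a := a) (b := b) (c := a + r) (d := b) hc (by linarith) (by linarith) le_rfl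
    rw [← intervalIntegral.integral_add_adjacent_intervals i1 i2]
    have hsub : Ioo (a + r) b ⊆ Ioo a b := Ioo_subset_Ioo (by linarith) le_rfl
    have b1 := norm_int_le g (c := a) (d := a + r) (by linarith)
    have b2 := first (a := a + r) (b := b) (μ := μ * r) (by linarith) hmr
      (hc.mono (Icc_subset_Icc (by linarith) le_rfl)) (h.mono hsub)
      (Or.inl (fun t ht => hμ.le.trans (hs t (hsub ht))))
      (fun t ht => by
        have h1 := hg t (hsub ht)
        have h2 : μ * r ≤ μ * (t - a) := by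
          apply mul_le_mul_of_nonneg_left _ hμ.le
          linarith [ht.1]
        exact (h2.trans h1).trans (le_abs_self _))
    have e1 : 3 / (μ * r) = 2 / Real.sqrt μ := by
      rw [hr]
      nth_rewrite 1 [← hsq2]
      field_simp
    have e2 : r + 2 / Real.sqrt μ ≤ 4 / Real.sqrt μ := by
      rw [hr, ← add_div]
      gcongr
      norm_num
    calc _ ≤ _ := norm_add_le _ _
      _ ≤ r + 2 / Real.sqrt μ := by rw [e1] at b2; linarith
      _ ≤ _ := e2

theorem deriv_neg_comp (g : ℝ → ℝ) : deriv (fun t => g (-t)) = fun t => -(deriv g (-t)) := by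
  ext t
  exact deriv_comp_neg g t

/-- the left half -/
theorem half' {a b : ℝ} {g : ℝ → ℝ} {μ : ℝ} (hab : a < b) (hμ : 0 < μ)
    (hc : ContinuousOn g (Icc a b)) (h : ContDiffOn ℝ 2 g (Ioo a b))
    (hs : ∀ t ∈ Ioo a b, μ ≤ deriv (deriv g) t)
    (hg : ∀ t ∈ Ioo a b, deriv g t ≤ - (μ * (b - t))) :
    ‖∫ t in a..b, Complex.exp ((g t : ℂ) * Complex.I)‖ ≤ 4 / Real.sqrt μ := by
  have hm1 : MapsTo (fun t : ℝ => -t) (Icc (-b) (-a)) (Icc a b) := fun t ht => by
    constructor <;> [have := ht.2; have := ht.1] <;> simp only <;> linarith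
  have hm2 : MapsTo (fun t : ℝ => -t) (Ioo (-b) (-a)) (Ioo a b) := fun t ht => by
    constructor <;> [have := ht.2; have := ht.1] <;> simp only <;> linarith
  have hd1 := deriv_neg_comp g
  have hd2 : deriv (deriv (fun t => g (-t))) = fun t => deriv (deriv g) (-t) := by
    rw [hd1]
    ext t
    have e1 : deriv (fun t => -(deriv g (-t))) t = -(deriv (fun t => deriv g (-t)) t) :=
      deriv.fun_neg
    rw [e1, deriv_comp_neg, neg_neg]
  have key := half (a := -b) (b := -a) (g := fun t => g (-t)) (μ := μ) (by linarith) hμ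
    (hc.comp continuous_neg.continuousOn hm1)
    (h.comp contDiff_neg.contDiffOn hm2)
    (fun t ht => by rw [hd2]; exact hs _ (hm2 ht))
    (fun t ht => by
      rw [hd1]
      have := hg _ (hm2 ht)
      simp only at this ⊢
      have e : μ * (t - -b) = μ * (b - -t) := by ring
      rw [e]; linarith)
  rw [intervalIntegral.integral_comp_neg
    (fun t => Complex.exp ((g t : ℂ) * Complex.I)), neg_neg, neg_neg] at key
  exact key

theorem second {a b : ℝ} {g : ℝ → ℝ} {μ : ℝ} (hab : a < b) (hμ : 0 < μ)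
    (hc : ContinuousOn g (Icc a b)) (h : ContDiffOn ℝ 2 g (Ioo a b))
    (hs : ∀ t ∈ Ioo a b, μ ≤ deriv (deriv g) t) :
    ‖∫ t in a..b, Complex.exp ((g t : ℂ) * Complex.I)‖ ≤ 8 / Real.sqrt μ := by
  obtain ⟨h1, h2, h3⟩ := c2_data h
  have hsq : 0 < Real.sqrt μ := Real.sqrt_pos.2 hμ
  have h48 : 4 / Real.sqrt μ ≤ 8 / Real.sqrt μ := by gcongr; norm_num
  have cg : ContinuousOn (deriv g) (Ioo a b) := fun t ht =>
    (h2 t ht).continuousAt.continuousWithinAt
  have hinc : ∀ s ∈ Ioo a b, ∀ t ∈ Ioo a b, s ≤ t → μ * (t - s) ≤ deriv g t - deriv g s := by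
    intro s hs' t ht' hst
    refine (convex_Ioo a b).mul_sub_le_image_sub_of_le_deriv cg ?_ ?_ s hs' t ht' hst
    · rw [interior_Ioo]
      exact fun t ht => (h2 t ht).differentiableAt.differentiableWithinAt
    · rw [interior_Ioo]
      exact hs
  by_cases hA : ∀ t ∈ Ioo a b, 0 ≤ deriv g t
  · refine (half hab hμ hc h hs ?_).trans h48
    intro t ht
    apply le_of_forall_pos_le_add
    intro ε hε
    set η := min (ε / μ) ((t - a) / 2) with hη
    have hta : 0 < t - a := by linarith [ht.1]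
    have hη0 : 0 < η := by rw [hη]; apply lt_min; positivity; linarith
    have hη1 : μ * η ≤ ε := by
      have := min_le_left (ε / μ) ((t - a) / 2)
      calc μ * η ≤ μ * (ε / μ) := mul_le_mul_of_nonneg_left this hμ.le
        _ = ε := by field_simp
    have hη2 : η ≤ (t - a) / 2 := min_le_right _ _
    have hm : a + η ∈ Ioo a b := ⟨by linarith, by linarith [ht.2]⟩
    have e1 := hinc (a + η) hm t ht (by linarith)
    have e2 := hA _ hm
    have e3 : μ * (t - (a + η)) = μ * (t - a) - μ * η := by ring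
    linarith
  by_cases hB : ∀ t ∈ Ioo a b, deriv g t ≤ 0
  · refine (half' hab hμ hc h hs ?_).trans h48
    intro t ht
    apply le_of_forall_pos_le_add
    intro ε hε
    set η := min (ε / μ) ((b - t) / 2) with hη
    have hta : 0 < b - t := by linarith [ht.2]
    have hη0 : 0 < η := by rw [hη]; apply lt_min; positivity; linarith
    have hη1 : μ * η ≤ ε := by
      have := min_le_left (ε / μ) ((b - t) / 2)
      calc μ * η ≤ μ * (ε / μ) := mul_le_mul_of_nonneg_left this hμ.le
        _ = ε := by field_simp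
    have hη2 : η ≤ (b - t) / 2 := min_le_right _ _
    have hm : b - η ∈ Ioo a b := ⟨by linarith [ht.1], by linarith⟩
    have e1 := hinc t ht (b - η) hm (by linarith)
    have e2 := hB _ hm
    have e3 : μ * (b - η - t) = μ * (b - t) - μ * η := by ring
    linarith
  push Not at hA hB
  obtain ⟨s, hs1, hs2⟩ := hA
  obtain ⟨t, ht1, ht2⟩ := hB
  have hst : s ≤ t := by
    by_contra hcon
    push Not at hcon
    have := hinc t ht1 s hs1 hcon.le
    have h5 : 0 < μ * (s - t) := mul_pos hμ (by linarith)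
    linarith
  have hsub : Icc s t ⊆ Ioo a b := fun x hx => ⟨lt_of_lt_of_le hs1.1 hx.1, lt_of_le_of_lt hx.2 ht1.2⟩
  obtain ⟨c, hc1, hc2⟩ := intermediate_value_Icc hst (cg.mono hsub) ⟨hs2.le, ht2.le⟩
  have hcm : c ∈ Ioo a b := hsub hc1
  have i1 := ii_e (a := a) (b := b) (c := a) (d := c) hc le_rfl hcm.1.le hcm.2.le
  have i2 := ii_e (a := a) (b := b) (c := c) (d := b) hc hcm.1.le hcm.2.le le_rfl
  rw [← intervalIntegral.integral_add_adjacent_intervals i1 i2]
  have sub1 : Ioo a c ⊆ Ioo a b := Ioo_subset_Ioo le_rfl hcm.2.le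
  have sub2 : Ioo c b ⊆ Ioo a b := Ioo_subset_Ioo hcm.1.le le_rfl
  have k1 := half' (a := a) (b := c) (g := g) (μ := μ) hcm.1 hμ
    (hc.mono (Icc_subset_Icc le_rfl hcm.2.le)) (h.mono sub1) (fun x hx => hs x (sub1 hx))
    (fun x hx => by
      have := hinc x (sub1 hx) c hcm hx.2.le
      rw [hc2] at this
      linarith)
  have k2 := half (a := c) (b := b) (g := g) (μ := μ) hcm.2 hμ
    (hc.mono (Icc_subset_Icc hcm.1.le le_rfl)) (h.mono sub2) (fun x hx => hs x (sub2 hx))
    (fun x hx => by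
      have := hinc c hcm x (sub2 hx) hx.1.le
      rw [hc2] at this
      linarith)
  calc _ ≤ _ := norm_add_le _ _
    _ ≤ 4 / Real.sqrt μ + 4 / Real.sqrt μ := add_le_add k1 k2
    _ = 8 / Real.sqrt μ := by ring

theorem hVDC : StVDC := by
  intro a b μ g hab hμ hc h
  refine ⟨fun hs hg => first hab hμ hc h hs hg, fun hs => ?_⟩
  rcases hs with hs | hs
  · exact second hab hμ hc h hs
  · have hd1 : deriv (fun t => -(g t)) = fun t => -(deriv g t) := by
      ext t; exact deriv.fun_neg
    have hd2 : deriv (deriv (fun t => -(g t))) = fun t => -(deriv (deriv g) t) := by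
      rw [hd1]; ext t; exact deriv.fun_neg
    have key := second (a := a) (b := b) (g := fun t => -(g t)) (μ := μ) hab hμ hc.neg h.neg
      (fun t ht => by rw [hd2]; have := hs t ht; simp only; linarith)
    have e : ∫ t in a..b, Complex.exp (((-(g t) : ℝ) : ℂ) * Complex.I) =
        (starRingEnd ℂ) (∫ t in a..b, Complex.exp ((g t : ℂ) * Complex.I)) := by
      rw [← intervalIntegral_conj]
      apply intervalIntegral.integral_congr
      intro t _
      simp only
      rw [← Complex.exp_conj, map_mul, Complex.conj_I, Complex.conj_ofReal]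
      push_cast
      ring_nf
    rw [e, RCLike.norm_conj] at key
    exact key

end Pool.Agent.Helper8.LM
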